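import Pool.Agent.FTU.Stmts

/-!
# Row SLV of squad FTU: one step of the formal perturbation theory
-/

set_option autoImplicit false

open Complex MvPolynomial

noncomputable section

namespace Pool.Agent.FTU.H13

open Pool.Agent.FTU

/-- antiderivatives -/
theorem antider (s : RR) : ∃ f : RR, dz f = s := by
  induction s using MvPolynomial.monomial_add_induction_on with
  | C a =>
    refine ⟨C a * X Var.z, ?_⟩
    unfold dz
    rw [Derivation.leibniz, pderiv_X_self, pderiv_C]
    simp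
  | monomial_add d a s _ _ ih =>
    obtain ⟨f, hf⟩ := ih
    refine ⟨monomial (d + Finsupp.single Var.z 1) (a / (d Var.z + 1)) + f, ?_⟩
    rw [map_add, hf]
    congr 1
    unfold dz
    rw [pderiv_monomial]
    have h1 : d + Finsupp.single Var.z 1 - Finsupp.single Var.z 1 = d := by
      rw [add_tsub_cancel_right]
    have h2 : a / ((d Var.z : ℂ) + 1) * ((d + Finsupp.single Var.z 1 : Var →₀ ℕ) Var.z : ℂ) = a := by
      rw [Finsupp.add_apply, Finsupp.single_eq_same]
      push_cast
      have : ((d Var.z : ℂ) + 1) ≠ 0 := by exact_mod_cast Nat.succ_ne_zero (d Var.z)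
      field_simp
    rw [h1, h2]

/-- the second equation has a solution -/
def Sol (t : RR) : Prop := ∃ u b c : RR, b ∈ Jz ∧ c ∈ Jt ∧
  C I * (xz * u - 2 * db u) - w0 * b + t = c

theorem Sol.add {t t' : RR} (h : Sol t) (h' : Sol t') : Sol (t + t') := by
  obtain ⟨u, b, c, hb, hc, e⟩ := h
  obtain ⟨u', b', c', hb', hc', e'⟩ := h'
  refine ⟨u + u', b + b', c + c', add_mem hb hb', add_mem hc hc', ?_⟩
  rw [map_add, ← e, ← e']
  ring

theorem Sol.mul (cjb : CjbStmt) {t : RR} (h : Sol t) {m : RR} (hm : m ∈ Jt) : Sol (m * t) := by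
  obtain ⟨u, b, c, hb, hc, e⟩ := h
  refine ⟨m * u, m * b, m * c, mul_mem (cjb.2.2.1 m hm) hb, mul_mem hm hc, ?_⟩
  have h1 : db (m * u) = m * db u := by
    rw [Derivation.leibniz, (cjb.1 m hm).2.2.2]
    simp
  rw [h1, ← e]
  ring

theorem C_mem_Jt (a : ℂ) : (C a : RR) ∈ Jt := Jt.algebraMap_mem a

theorem sol_base (cjb : CjbStmt) : ∀ a j : ℕ, Sol (xz ^ a * xb ^ j) := by
  obtain ⟨hJt, hJz, hle, hxe, hxb, hjet, -, -, -, -, -, -, -, hbz, hbb, -, -⟩ := id cjb
  have hdb : ∀ j : ℕ, db (xb ^ j) = (j : RR) * xb ^ (j - 1) := by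
    intro j
    rw [Derivation.leibniz_pow, hbb]
    simp
  intro a
  induction a with
  | zero =>
    intro j
    rcases j with - | j
    · refine ⟨0, 0, 1, zero_mem _, one_mem _, ?_⟩
      simp
    · have hj : ((j : ℂ) + 1) ≠ 0 := by exact_mod_cast Nat.succ_ne_zero j
      refine ⟨C (1 / (2 * ((j : ℂ) + 1) * I)) * xb ^ (j + 2), C (1 / ((j : ℂ) + 1)) * xb ^ (j + 1), 0,
        mul_mem (hle _ (C_mem_Jt _)) (pow_mem hxb _), zero_mem _, ?_⟩
      have h1 : db (C (1 / (2 * ((j : ℂ) + 1) * I)) * xb ^ (j + 2)) =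
          C (1 / (2 * ((j : ℂ) + 1) * I)) * (((j + 2 : ℕ) : RR) * xb ^ (j + 1)) := by
        rw [Derivation.leibniz, (hJt _ (C_mem_Jt _)).2.2.2, hdb]
        simp
      rw [h1]
      have e1 : (C I : RR) * C (1 / (2 * ((j : ℂ) + 1) * I)) = C (1 / (2 * ((j : ℂ) + 1))) := by
        rw [← C_mul]
        congr 1
        have := I_ne_zero
        field_simp
      have e2 : ((j + 2 : ℕ) : RR) = C ((j : ℂ) + 2) := by
        rw [← map_natCast (C : ℂ →+* RR)]
        push_cast
        rfl
      have e3 : (C (1 / ((j : ℂ) + 1)) : RR) = C (1 / (2 * ((j : ℂ) + 1))) + C (1 / (2 * ((j : ℂ) + 1))) := by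
        rw [← C_add]
        congr 1
        field_simp
        norm_num
      have e4 : (C (1 / (2 * ((j : ℂ) + 1))) : RR) * C ((j : ℂ) + 2) * 2 =
          1 + C (1 / (2 * ((j : ℂ) + 1))) * 2 := by
        have : (2 : RR) = C 2 := by
          rw [← map_ofNat (C : ℂ →+* RR)]
        rw [this, ← C_mul, ← C_mul, ← C_mul, ← C_1, ← C_add]
        congr 1
        field_simp
        ring
      have e5 : (C (1 / 2) : RR) * 2 = 1 := by
        have : (2 : RR) = C 2 := by
          rw [← map_ofNat (C : ℂ →+* RR)]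
        rw [this, ← C_mul, ← C_1]
        congr 1
        norm_num
      have e6 : w0 = C (1 / 2) * xz * xb - 1 := rfl
      rw [e2, e6, e3]
      calc C I * (xz * (C (1 / (2 * ((j : ℂ) + 1) * I)) * xb ^ (j + 2)) -
            2 * (C (1 / (2 * ((j : ℂ) + 1) * I)) * (C ((j : ℂ) + 2) * xb ^ (j + 1)))) -
            (C (1 / 2) * xz * xb - 1) *
              ((C (1 / (2 * ((j : ℂ) + 1))) + C (1 / (2 * ((j : ℂ) + 1)))) * xb ^ (j + 1)) +
            xz ^ 0 * xb ^ (j + 1)
          = (C I * C (1 / (2 * ((j : ℂ) + 1) * I))) * (xz * xb ^ (j + 2)) -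
            (C I * C (1 / (2 * ((j : ℂ) + 1) * I))) * C ((j : ℂ) + 2) * 2 * xb ^ (j + 1) -
            (C (1 / 2) * 2) * C (1 / (2 * ((j : ℂ) + 1))) * xz * xb ^ (j + 2) +
            2 * C (1 / (2 * ((j : ℂ) + 1))) * xb ^ (j + 1) + xb ^ (j + 1) := by ring
        _ = 0 := by
          rw [e1, e4, e5]
          ring
  | succ a ih =>
    intro j
    have h1 : db (C I * (xz ^ a * xb ^ j)) = C I * (xz ^ a * ((j : RR) * xb ^ (j - 1))) := by
      rw [Derivation.leibniz, (hJt _ (C_mem_Jt _)).2.2.2, Derivation.leibniz, hdb,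
        Derivation.leibniz_pow, hbz]
      simp
    have hII : (C I : RR) * C I = -1 := by
      rw [← C_mul, I_mul_I, map_neg, C_1]
    rcases j with - | j
    · refine ⟨C I * (xz ^ a * xb ^ 0), 0, 0, zero_mem _, zero_mem _, ?_⟩
      rw [h1]
      calc C I * (xz * (C I * (xz ^ a * xb ^ 0)) -
            2 * (C I * (xz ^ a * (((0 : ℕ) : RR) * xb ^ (0 - 1))))) - w0 * 0 +
            xz ^ (a + 1) * xb ^ 0
          = (C I * C I) * xz ^ (a + 1) + xz ^ (a + 1) := by
            simp only [Nat.cast_zero]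
            ring
        _ = 0 := by
            rw [hII]
            ring
    · obtain ⟨u, b, c, hb, hc, e⟩ := Sol.mul cjb (ih j) (C_mem_Jt (2 * ((j : ℂ) + 1)))
      refine ⟨C I * (xz ^ a * xb ^ (j + 1)) + u, b, c, hb, hc, ?_⟩
      rw [map_add, h1, ← e]
      have e2 : ((j + 1 : ℕ) : RR) = C ((j : ℂ) + 1) := by
        rw [← map_natCast (C : ℂ →+* RR)]
        push_cast
        rfl
      have e3 : (C (2 * ((j : ℂ) + 1)) : RR) = 2 * C ((j : ℂ) + 1) := by
        have : (2 : RR) = C 2 := by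
          rw [← map_ofNat (C : ℂ →+* RR)]
        rw [this, ← C_mul]
      rw [e2, e3, Nat.add_sub_cancel]
      have key : C I * (xz * (C I * (xz ^ a * xb ^ (j + 1)) + u) -
            2 * (C I * (xz ^ a * (C ((j : ℂ) + 1) * xb ^ j)) + db u)) - w0 * b +
            xz ^ (a + 1) * xb ^ (j + 1) -
          (C I * (xz * u - 2 * db u) - w0 * b + 2 * C ((j : ℂ) + 1) * (xz ^ a * xb ^ j)) =
          (C I * C I + 1) * (xz ^ (a + 1) * xb ^ (j + 1)) -
            (C I * C I + 1) * (2 * C ((j : ℂ) + 1) * (xz ^ a * xb ^ j)) := by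
        ring
      rw [hII] at key
      have key2 := sub_eq_zero.1 (key.trans (by ring))
      exact key2

theorem sol_all (cjb : CjbStmt) (t : RR) : Sol t := by
  have main : ∀ a j : ℕ, Sol (t * (xz ^ a * xb ^ j)) := by
    induction t using MvPolynomial.induction_on with
    | C a => exact fun p j => Sol.mul cjb (sol_base cjb p j) (C_mem_Jt a)
    | add p q hp hq =>
      intro a j
      rw [add_mul]
      exact (hp a j).add (hq a j)
    | mul_X p v hp =>
      intro a j
      cases v with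
      | z =>
        have h : p * X Var.z * (xz ^ a * xb ^ j) = p * (xz ^ (a + 1) * xb ^ j) := by
          unfold xz; ring
        rw [h]
        exact hp _ _
      | zb =>
        have h : p * X Var.zb * (xz ^ a * xb ^ j) = p * (xz ^ a * xb ^ (j + 1)) := by
          unfold xb; ring
        rw [h]
        exact hp _ _
      | eta =>
        have h : p * X Var.eta * (xz ^ a * xb ^ j) = X Var.eta * (p * (xz ^ a * xb ^ j)) := by
          ring
        rw [h]
        exact Sol.mul cjb (hp a j) cjb.2.2.2.1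
      | jet c p' q' r' =>
        have h : p * X (Var.jet c p' q' r') * (xz ^ a * xb ^ j) =
            X (Var.jet c p' q' r') * (p * (xz ^ a * xb ^ j)) := by
          ring
        rw [h]
        exact Sol.mul cjb (hp a j) (cjb.2.2.2.2.2.1 c p' q' r')
  have h := main 0 0
  rwa [pow_zero, pow_zero, mul_one, mul_one] at h

theorem slv (cjb : CjbStmt) : SlvStmt := by
  intro s t
  obtain ⟨f, hf⟩ := antider (C (1 / (2 * I)) * s)
  obtain ⟨u, b, c, hb, hc, e⟩ := sol_all cjb t
  refine ⟨u, f, b, c, hb, hc, ?_, e⟩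
  rw [hf, ← mul_assoc, ← C_mul]
  have h : -(2 * I) * (1 / (2 * I)) = -1 := by
    have := I_ne_zero
    field_simp
  rw [h, map_neg, C_1]
  ring

end Pool.Agent.FTU.H13
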